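import Pool.Agent.helper61.Y2.Spec

set_option autoImplicit false

/-!
# Y2: the short combining rows E4, E6, U4, L2, EXP, PA, PB
-/

namespace H61.Y2

open H61.Yorioka Cardinal

theorem E4 (hY0A : Y0A_stmt) (hY0B : Y0B_stmt) (hY0C : Y0C_stmt) (hE1 : E1_stmt) (hE2 : E2_stmt) (hE3 : E3_stmt) :
    E4_stmt := by
  intro f hf
  refine ⟨fun e => LS (UN (AE f e)), fun e he => hY0B f hf _ (hY0A f hf _ (hE1 f e hf he)), fun Z hZ => ?_⟩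
  obtain ⟨T, hT, hZT⟩ := hY0C f hf Z hZ
  refine ⟨ET f T, fun e he => ⟨hE3 f T hf hT, hE2 f e T hf hT he.1 (he.2.trans hZT)⟩⟩

theorem E6 (hE4 : E4_stmt) (hE5 : E5_stmt) (hSQT : SQT_stmt) : E6_stmt := by
  intro f F hf
  refine hSQT _ _ _ _ _ rC rE 1 0 (fun A j => Nat.clog 2 (A j).card) {A | Sl F A} {e | EE e} (hE4 f hf)
    (fun A hA => hE5 F A hA) (fun e => ⟨e, fun A hA => ⟨hA.2.1, ?_⟩⟩)
  obtain ⟨m, hm⟩ := hA.2.2
  exact ⟨m, fun j hj => (Nat.le_pow_clog (by norm_num) _).trans (Nat.pow_le_pow_right (by norm_num) (hm j hj))⟩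

theorem U4 (hY0B : Y0B_stmt) (hY0C : Y0C_stmt) (hU1 : U1_stmt) (hU2 : U2_stmt) (hU3 : U3_stmt) : U4_stmt := by
  classical
  intro f u hf hu
  refine ⟨fun A => LS (TU f u A), fun A hA => hY0B f hf _ (hU1 f u A hf hu hA), fun Z hZ => ?_⟩
  obtain ⟨T, hT, hZT⟩ := hY0C f hf Z hZ
  refine ⟨BT f u T, fun A hA => ⟨fun j s hs => ?_, ?_⟩⟩
  · unfold BT at hs
    exact mem_level.1 (Finset.mem_filter.1 hs).1
  · obtain ⟨m, hm⟩ := hU2 f u A T hf hu hA.1 hT (hA.2.trans hZT)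
    obtain ⟨m', hm'⟩ := hU3 f u T hf hT
    exact ⟨max m m', fun j hj => ⟨hm j ((le_max_left _ _).trans hj), hm' j ((le_max_right _ _).trans hj)⟩⟩

theorem L2 (hE6 : E6_stmt) (hD1 : D1_stmt) (hD2 : D2_stmt) (hU4 : U4_stmt) (hL2C : L2C_stmt) (hSQT : SQT_stmt)
    (hSQM : SQM_stmt) (hSQE : SQE_stmt) : L2_stmt := by
  intro f hf
  refine hSQT _ _ _ _ _ (rS f) rC 1 2 id {A | Sl f A} {A | Sl f A} (hE6 f f hf) (fun A hA => hA) (fun e => ?_)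
  by_cases he : EE e
  swap
  · have h0 : {A | A ∈ {A | Sl f A} ∧ rC (id A) e} = ∅ := by
      ext A
      exact ⟨fun h => he h.2.1, fun h => h.elim⟩
    rw [h0]
    exact hSQE _ _ _ _ _
  obtain ⟨D, hD⟩ := hD1 e he
  obtain ⟨hu, -⟩ := hD2 e D hD
  refine hSQT _ _ _ _ _ (rS f) (r1 f (fun j => D j / 2 + 1)) 1 1 id _ {A | Sl f A} (hU4 f _ hf hu)
    (fun A hA => hA.1) (fun B => ?_)
  by_cases hB : (∀ j, ∀ s ∈ B j, s.length = f (KK j)) ∧ ∃ m, ∀ j ≥ m, (B j).card ≤ KK (j + (D j / 2 + 1))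
  · refine hSQM _ _ _ _ _ _ _ (hL2C f e D B hf he hD hB.1 hB.2) ?_
    rintro A ⟨⟨h1, h2⟩, h3⟩
    obtain ⟨-, m, hm⟩ := h3
    exact ⟨h1, h2.2, m, fun j hj => (hm j hj).1⟩
  · have h0 : {A | A ∈ {A | A ∈ {A | Sl f A} ∧ rC (id A) e} ∧ r1 f (fun j => D j / 2 + 1) (id A) B} = ∅ := by
      ext A
      refine ⟨fun h => ?_, fun h => h.elim⟩
      obtain ⟨h1, m, hm⟩ := h.2
      exact hB ⟨h1, m, fun j hj => (hm j hj).2⟩
    rw [h0]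
    exact hSQE _ _ _ _ _

theorem EXP (hE6 : E6_stmt) (hXP1 : XP1_stmt) (hXP2 : XP2_stmt) (hSQT : SQT_stmt) (hSQM : SQM_stmt)
    (hSQE : SQE_stmt) : EXP_stmt := by
  intro f hf
  refine hSQT _ _ _ _ _ (rS (fun n => 2 ^ f n)) rC 1 6 id {A | Sl (fun n => 2 ^ f n) A} {A | Sl (fun n => 2 ^ f n) A}
    (hE6 f (fun n => 2 ^ f n) hf) (fun A hA => hA) (fun e => ?_)
  by_cases he : EE e
  swap
  · have h0 : {A | A ∈ {A | Sl (fun n => 2 ^ f n) A} ∧ rC (id A) e} = ∅ := by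
      ext A
      exact ⟨fun h => he h.2.1, fun h => h.elim⟩
    rw [h0]
    exact hSQE _ _ _ _ _
  refine hSQT _ _ _ _ _ (rS (fun n => 2 ^ f n)) (rW f) 3 3 id _ {A | Sl (fun n => 2 ^ f n) A} (hXP1 f hf)
    (fun A hA => hA.1) (fun W => ?_)
  by_cases hW : ∃ m, ∀ j ≥ m, (W j).card ≤ 2 ^ f (KK j)
  · refine hSQM _ _ _ _ _ _ _ (hXP2 f e W hf he hW) ?_
    rintro A ⟨⟨h1, h2⟩, m, hm⟩
    exact ⟨h1, h2.2, m, fun j hj => (hm j hj).1⟩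
  · have h0 : {A | A ∈ {A | A ∈ {A | Sl (fun n => 2 ^ f n) A} ∧ rC (id A) e} ∧ rW f (id A) W} = ∅ := by
      ext A
      refine ⟨fun h => ?_, fun h => h.elim⟩
      obtain ⟨m, hm⟩ := h.2
      exact hW ⟨m, fun j hj => (hm j hj).2⟩
    rw [h0]
    exact hSQE _ _ _ _ _

theorem PA (hMON : MON_stmt) (hTOI : TOI_stmt) (hFA : FA_stmt) : PA_stmt := by
  intro f g hf hg h
  exact hFA f g 3 hf hg (hTOI g _ 3 hg (hMON f g hf hg h))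

theorem PB (hPA : PA_stmt) (hEXP : EXP_stmt) (hTOI : TOI_stmt) (hFA : FA_stmt) : PB_stmt := by
  intro f hf
  have hg : StrictMono (fun n => 2 ^ f n) := fun a b h => Nat.pow_lt_pow_right (by norm_num) (hf h)
  obtain ⟨h1, h2⟩ := hFA f _ 7 hf hg (hTOI _ _ 7 hg (hEXP f hf))
  obtain ⟨h3, h4⟩ := hPA (fun n => 2 ^ f n) f hg hf ⟨0, fun n _ => (Nat.lt_two_pow_self).le⟩
  exact ⟨le_antisymm h3 h1, le_antisymm h2 h4⟩

end H61.Y2
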