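import Pool.Agent.helper61.YTukey

set_option autoImplicit false

/-!
# Project Y2 (MP_752b23_lc): add and cof of the Yorioka ideals do not change under `f ↦ 2 ^ f`

Mathematics: helper49 (`/team-store/C6_MP_752b23_lc_helper49.md`), checked by helper61. Definitions of the ideals: `Pool/Agent/helper61/YDefs.lean`.

RULES. Row `y2:XXX` is a file `Pool/Agent/<seat>/Y2/XXX.lean`: `import Pool.Agent.helper61.Y2.Spec`, `set_option autoImplicit false`, `namespace H61.Y2`, `open H61.Yorioka Cardinal`, and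
`theorem XXX (hYYY : YYY_stmt) .. : XXX_stmt`; the EXACT line is in the lock note (other rows only as hypotheses, nobody waits; an unused hypothesis may stay). Auxiliary lemmas are prefixed `XXX_`.
No `convert`, `congr!`, `native_decide`, no double quotes, no `#s` with a name `s` of letters.

AVAILABLE from `YBase.lean` / `YTukey.lean` (namespace `H61.Yorioka`): `IsInit s x` (`s` is an initial segment of `x`), `res x n` (the first `n` values, `res_length`, `isInit_res`), `isInit_iff`, `IsInit.of_prefix`,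
`IsInit.comparable`, `IsInit.unique`, `extend`, `isInit_extend`, `level n` (the finset of the strings of length `n`: `mem_level`, `card_level : (level n).card = 2 ^ n`), `mem_limSet_iff`, `Bdd`, `Dom`, `IRel`.
`Pool/Agent/helper61/YLower.lean` has `num : List Bool → ℕ` injective with `2 ^ t.length ≤ num t < 2 ^ (t.length + 1)`, `enode` its inverse. `Pool/Agent/Results/MP_cd6b71_lc/YoriokaEqualities.lean` (copy, do not import)
has `limSet_null`, `univ_notMem_yorioka`, `singleton_mem_yorioka`, `exists_not_union`, `yorioka_down`, `lt_add_iff`, `cof_le_iff`.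

NOTATION in the proofs: `K_j = KK j = 2 ^ 2 ^ j`, so `K_(j+1) = K_j ^ 2`; `c_T(N) = cn T (f N)`; `f N ≥ N` and `f (N + i) ≥ f N + i` as `f` is strictly increasing. `t ⊂ v` is `t <+: v` (prefix).
-/

namespace H61.Y2

open H61.Yorioka Cardinal

/-! ## Definitions -/

/-- `K_j` -/
def KK (j : ℕ) : ℕ := 2 ^ 2 ^ j

/-- the number of strings of `T` of length below `n` (always a finite set) -/
noncomputable def cn (T : Set (List Bool)) (n : ℕ) : ℕ := {t | t ∈ T ∧ t.length < n}.ncard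

/-- thin sets of strings -/
def Thin (f : ℕ → ℕ) (T : Set (List Bool)) : Prop := ∀ k : ℕ, ∃ m : ℕ, ∀ N ≥ m, cn T (f N) ^ k ≤ N

/-- the points which extend infinitely many strings of `T` -/
def LS (T : Set (List Bool)) : Set (ℕ → Bool) := {x | {t | t ∈ T ∧ IsInit t x}.Infinite}

/-- slaloms of strings -/
structure Sl (f : ℕ → ℕ) (A : ℕ → Finset (List Bool)) : Prop where
  len : ∀ j, ∀ s ∈ A j, s.length = f (KK j)
  wid : ∀ k : ℕ, ∃ m : ℕ, ∀ j ≥ m, (A j).card ^ k ≤ KK j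

/-- the strings of a slalom -/
def UN (A : ℕ → Finset (List Bool)) : Set (List Bool) := {t | ∃ j, t ∈ A j}

/-- `e j = o (2 ^ j)` -/
def EE (e : ℕ → ℕ) : Prop := ∀ k : ℕ, ∃ m : ℕ, ∀ j ≥ m, k * e j ≤ 2 ^ j

/-- sequential reduction in `k` steps of the relation `r`, on the set `P` of challenges, to the ideal `J` -/
def Sq {X Y : Type} (J : Set (Set (ℕ → Bool))) (r : X → Y → Prop) : ℕ → Set X → Prop
  | 0, P => ∃ y, ∀ x ∈ P, r x y
  | k + 1, P => ∃ φ : X → Set (ℕ → Bool), (∀ x ∈ P, φ x ∈ J) ∧ ∀ Z ∈ J, Sq J r k {x | x ∈ P ∧ φ x ⊆ Z}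

/-- domination in `EE` -/
def rE (e e' : ℕ → ℕ) : Prop := EE e' ∧ ∃ m, ∀ j ≥ m, e j ≤ e' j

/-- domination of the widths -/
def rC (A : ℕ → Finset (List Bool)) (e : ℕ → ℕ) : Prop := EE e ∧ ∃ m, ∀ j ≥ m, (A j).card ≤ 2 ^ e j

/-- localisation of slaloms -/
def rS (f : ℕ → ℕ) (A S : ℕ → Finset (List Bool)) : Prop := Sl f S ∧ ∃ m, ∀ j ≥ m, A j ⊆ S j

/-- first localisation -/
def r1 (f u : ℕ → ℕ) (A B : ℕ → Finset (List Bool)) : Prop :=
  (∀ j, ∀ s ∈ B j, s.length = f (KK j)) ∧ ∃ m, ∀ j ≥ m, A j ⊆ B j ∧ (B j).card ≤ KK (j + u j)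

/-- localisation of single objects -/
def rV {α : Type} (o : ℕ → α) (C : ℕ → Finset α) : Prop :=
  (∀ k : ℕ, ∃ m : ℕ, ∀ i ≥ m, (C i).card ^ k ≤ KK i) ∧ ∃ m, ∀ i ≥ m, o i ∈ C i

/-- first localisation of single objects -/
def r1V {α : Type} (u : ℕ → ℕ) (o : ℕ → α) (C : ℕ → Finset α) : Prop :=
  ∃ m, ∀ i ≥ m, o i ∈ C i ∧ (C i).card ≤ KK (i + u i)

/-- candidates for the sets of a slalom -/
def rW (f : ℕ → ℕ) (A : ℕ → Finset (List Bool)) (W : ℕ → Finset (Finset (List Bool))) : Prop :=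
  ∃ m, ∀ j ≥ m, A j ∈ W j ∧ (W j).card ≤ 2 ^ f (KK j)

/-- `q` is good for `T` -/
def Good (T : Set (List Bool)) (q : List Bool) : Prop :=
  ∀ F : Finset (List Bool), (∀ t ∈ F, t ∈ T ∧ q <+: t ∧ q.length < t.length) →
    4 * ∑ t ∈ F, (1 / 2 : ℝ) ^ t.length ≤ (1 / 2) ^ q.length

/-- all `p 0 .. 0` of length `f (K_j)` with `|p| = e j` -/
def AE (f e : ℕ → ℕ) (j : ℕ) : Finset (List Bool) :=
  if e j ≤ f (KK j) then (level (e j)).image (fun p => p ++ List.replicate (f (KK j) - e j) false) else ∅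

/-- the bound extracted from a thin set -/
noncomputable def ET (f : ℕ → ℕ) (T : Set (List Bool)) (j : ℕ) : ℕ := j + Nat.clog 2 (cn T (f (KK (j + 1))))

/-- monotone unbounded functions with values `≥ 1` -/
structure UF (u : ℕ → ℕ) : Prop where
  mono : Monotone u
  one : ∀ j, 1 ≤ u j
  unb : ∀ C : ℕ, ∃ j, C ≤ u j

/-- all `p s 0 .. 0` of length `f (K_(j + u j))` with `s ∈ A j`, `|p| = 2 ^ j` -/
def TU (f u : ℕ → ℕ) (A : ℕ → Finset (List Bool)) : Set (List Bool) :=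
  {t | ∃ j, ∃ s ∈ A j, ∃ p : List Bool, p.length = 2 ^ j ∧
    t = p ++ (s ++ List.replicate (f (KK (j + u j)) - (2 ^ j + f (KK j))) false)}

open Classical in
/-- the candidates extracted from a thin set -/
noncomputable def BT (f u : ℕ → ℕ) (T : Set (List Bool)) (j : ℕ) : Finset (List Bool) :=
  (level (f (KK j))).filter (fun s => ∃ t ∈ T, 2 ^ j + f (KK j) ≤ t.length ∧ t.length < f (KK (j + u j + 1)) ∧
    (t.drop (2 ^ j)).take (f (KK j)) = s)

/-- the properties of the function `D` of the second localisation -/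
structure DF (e D : ℕ → ℕ) : Prop where
  mono : Monotone D
  unb : ∀ C : ℕ, ∃ j, C ≤ D j
  le : ∀ j, D j ≤ j
  key : ∃ m, ∀ j ≥ m, (e j + 2 * j) * 2 ^ D j ≤ 2 ^ j

/-- the `j` with `j - D j = i` -/
def JJ (D : ℕ → ℕ) (i : ℕ) : Finset ℕ := (Finset.range (2 ^ i + 1)).filter (fun j => j - D j = i)

/-- the level at which the `j`-th set is coded in step 5 -/
def ii (f : ℕ → ℕ) (j : ℕ) : ℕ := Nat.clog 2 (f (KK j))

/-- the `j` with `ii f j = i` -/
def JX (f : ℕ → ℕ) (i : ℕ) : Finset ℕ := (Finset.range i).filter (fun j => ii f j = i)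

/-! ## Block 0: the ideal -/

/-- **Y0A** (short-medium). A string of `UN A` of length `< f N` lies in some `A j` with `K_j < N`. Given `k ≥ 1` take `m` with `|A_j|^(2k) ≤ K_j` for `j ≥ m`, `C = ∑_(j < m) |A_j|`; with `J` the number of `j` with
`K_j < N` (`J ≤ log₂ N + 1`) and `M ≥ 1` the largest `|A_j|`, `m ≤ j`, `K_j < N` (or `1`): `M^(2k) ≤ N`, `c(N) ≤ C + J M ≤ (C + J) M`, `(C + J)^(2k) ≤ N` for large `N`; so `(c(N)^k)² ≤ N²`. -/
def Y0A_stmt : Prop := ∀ f : ℕ → ℕ, StrictMono f → ∀ A : ℕ → Finset (List Bool), Sl f A → Thin f (UN A)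

/-- **Y0B** (medium). `T` finite: `LS T = ∅`, take `σ n = ` a string of length `f (n ^ n)`. `T` infinite: enumerate `T` by increasing length: `σ i = enode (Nat.nth (· ∈ num '' T) i)` (`YLower.lean`) or any enumeration with
nondecreasing lengths. If `|σ i| < f (i^k)` (`k ≥ 1`), then `σ 0, .., σ i` are `i + 1` strings of length `< f (i^k)`, against `cn T (f (i^k))^k ≤ i^k`. `k = 0`: `f 1 ≤ f i ≤ |σ i|`. -/
def Y0B_stmt : Prop := ∀ f : ℕ → ℕ, StrictMono f → ∀ T : Set (List Bool), Thin f T → LS T ∈ yoriokaIdeal f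

/-- **Y0C** (short-medium). `T = Set.range σ`. Given `k`, `f (i^(2k+1)) ≤ |σ i|` for `i ≥ m`: if `|σ i| < f N` then `i < m` or `i^(2k+1) < N`, so `c_T(N) ≤ m + (number of i with i^(2k+1) < N)`, and the `k`-th power is `≤ N` for
large `N` (if `a = ` that number then `(a - 1)^(2k+1) < N`). `x ∈ limSet σ`: infinitely many `n` with `σ n ⊂ x`; as `|σ n| → ∞` they give infinitely many strings. -/
def Y0C_stmt : Prop := ∀ f : ℕ → ℕ, StrictMono f → ∀ Z ∈ yoriokaIdeal f, ∃ T : Set (List Bool), Thin f T ∧ Z ⊆ LS T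

/-- **Y0D** (short-medium). `A_j = ` the truncations to length `f (K_j)` of the `t ∈ T` with `f (K_j) ≤ |t| < f (K_(j+1))`: `|A_j| ≤ c_T(K_(j+1))`, `c_T(K_(j+1))^(2k) ≤ K_(j+1) = K_j²`, so `|A_j|^k ≤ K_j`. Only finitely many `t ∈ T` are
shorter than `f (K_0)`, and each string `t|f(K_j)` comes from finitely many `t` of the level `j`, so infinitely many `t ⊂ x` give infinitely many strings of `UN A`. -/
def Y0D_stmt : Prop := ∀ f : ℕ → ℕ, StrictMono f → ∀ T : Set (List Bool), Thin f T →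
  ∃ A : ℕ → Finset (List Bool), Sl f A ∧ LS T ⊆ LS (UN A)

/-- **Y0E** (short). Only finitely many strings lie in the `A j`, `j < m`. -/
def Y0E_stmt : Prop := ∀ A B : ℕ → Finset (List Bool), (∃ m, ∀ j ≥ m, A j ⊆ B j) → LS (UN A) ⊆ LS (UN B)

/-- **Y0F** (short). If the cofinality were finite there would be a finite cofinal family `D ⊆ I_f`; all its members are null (`limSet_null`, copy it), but every `{x} ∈ I_f` is contained in one of them, so the whole space is a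
finite union of null sets. (The infimum is attained: `csInf_mem`.) -/
def Y0F_stmt : Prop := ∀ f : ℕ → ℕ, StrictMono f → ℵ₀ ≤ cof (yoriokaIdeal f)

/-! ## Block Q: sequential reductions -/

/-- **SQM** (short). Induction on `k`. -/
def SQM_stmt : Prop := ∀ (X Y : Type) (J : Set (Set (ℕ → Bool))) (r : X → Y → Prop) (k : ℕ) (P P' : Set X),
  Sq J r k P → P' ⊆ P → Sq J r k P'

/-- **SQE** (short). Induction on `k`. -/
def SQE_stmt : Prop := ∀ (X Y : Type) [Nonempty Y] (J : Set (Set (ℕ → Bool))) (r : X → Y → Prop) (k : ℕ),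
  Sq J r k (∅ : Set X)

/-- **SQT** (short). Composition. Induction on `k`, for all `P, P'`. `k = 0`: `y'` is a response for all of `P'`, so `P = {x ∈ P | r' (a x) y'}`. `k + 1`: `φ ∘ a`; for `Z ∈ J` use the induction hypothesis for
`{x ∈ P | φ (a x) ⊆ Z}` and `{x' ∈ P' | φ x' ⊆ Z}` (and `SQM` for the last hypothesis, or intersect directly). -/
def SQT_stmt : Prop := ∀ (X Y X' Y' : Type) (J : Set (Set (ℕ → Bool))) (r : X → Y → Prop) (r' : X' → Y' → Prop) (k l : ℕ)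
  (a : X → X') (P : Set X) (P' : Set X'), Sq J r' k P' → (∀ x ∈ P, a x ∈ P') →
  (∀ y' : Y', Sq J r l {x | x ∈ P ∧ r' (a x) y'}) → Sq J r (k + l) P

/-- **SQA** (short). Induction on `k`: `⋃₀ (φ '' F) ∈ J`, otherwise `add J ≤ #(φ '' F) ≤ #F`. -/
def SQA_stmt : Prop := ∀ (X Y : Type) (J : Set (Set (ℕ → Bool))) (r : X → Y → Prop) (k : ℕ) (P : Set X),
  Sq J r k P → ∀ F : Set X, F ⊆ P → #F < add J → ∃ y, ∀ x ∈ F, r x y

/-- **SQC** (short-medium). Induction on `k`: for `Z` in a cofinal family of size `cof J` (`csInf_mem`) the set `{x ∈ P | φ x ⊆ Z}` has a dominating set of size `≤ cof J`; the union of these sets works, `κ * κ = κ` for infinite `κ`. -/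
def SQC_stmt : Prop := ∀ (X Y : Type) (J : Set (Set (ℕ → Bool))) (r : X → Y → Prop) (k : ℕ) (P : Set X),
  ℵ₀ ≤ cof J → Sq J r k P → ∃ D : Set Y, #D ≤ cof J ∧ ∀ x ∈ P, ∃ y ∈ D, r x y

/-! ## Block C: the core -/

/-- **TLS** (medium). `N₀`: `c_T(M) ≤ M` for `M ≥ N₀`. Sort the `t ∈ F` by the `i` with `f (N + i) ≤ |t| < f (N + i + 1)`: at most `N + i + 1` strings, each of weight at most `2^(-f(N) - i)`; `∑_i (N + 1 + i) 2^(-i) ≤ 2 N + 4`. -/
def TLS_stmt : Prop := ∀ f : ℕ → ℕ, StrictMono f → ∀ T : Set (List Bool), Thin f T → ∃ N₀ : ℕ, ∀ N ≥ N₀, ∀ F : Finset (List Bool),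
  (∀ t ∈ F, t ∈ T ∧ f N ≤ t.length) → ∑ t ∈ F, (1 / 2 : ℝ) ^ t.length ≤ (2 * N + 4) * (1 / 2) ^ f N

/-- **GD** (short-medium; from TLS). `N ≥ N₀`, `N ≥ 6`, so `4 (2 N + 4) ≤ 2^N ≤ 2^(f N)`. If no `q ∈ level (f N)` is good, choose bad finite sets `F_q`; they are pairwise disjoint (`q` is a prefix of `t` of length `f N`), and
their union `F` has `∑ > 2^(f N) 2^(-f N) / 4 = 1/4`, but `≤ (2 N + 4) 2^(-f N) ≤ 1/4` by TLS. -/
def GD_stmt : Prop := ∀ f : ℕ → ℕ, StrictMono f → ∀ T : Set (List Bool), Thin f T → ∃ q, Good T q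

/-- **COR** (short-medium). Otherwise, starting from a good `q_0`, choose `q_(i+1) = p s` good, longer than `q_i` (take `M = |q_i| + 1`), `q_i ⊂ q_(i+1)`, such that no `t ∈ T` with `|q_i| < |t|` is a prefix of `q_(i+1)`. Let `x` be the union.
Then `x ∈ LS {..}` (the `q_i`, `i ≥ 1`, are infinitely many different strings of that set), but a `t ∈ T`, `t ⊂ x`, `|t| > |q_0|`, has `|q_i| < |t| ≤ |q_(i+1)|` for some `i`, so `t` is a prefix of `q_(i+1)`: no such `t`, so `x ∉ LS T`. -/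
def COR_stmt : Prop := ∀ (T : Set (List Bool)) (Φ : Set (ℕ × List Bool)), (∃ q, Good T q) →
  LS {t | ∃ l s, ∃ p : List Bool, (l, s) ∈ Φ ∧ p.length = l ∧ t = p ++ s} ⊆ LS T →
  ∃ (q : List Bool) (M : ℕ), Good T q ∧ ∀ (l : ℕ) (s : List Bool), (l, s) ∈ Φ → M ≤ l + s.length →
    ∀ p : List Bool, p.length = l → q <+: p → Good T (p ++ s) → ∃ t ∈ T, q.length < t.length ∧ t <+: p ++ s

/-- **AVO** (medium). There are `2^(l - |q|)` strings `p` of length `l` with `q ⊂ p`. Those with a prefix `t ∈ T`, `|q| < |t| ≤ l` (then `q ⊂ t`): at most `∑_t 2^(l - |t|) ≤ 2^(l - |q|) / 4` (`q` good). Those which are a prefix of a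
`t ∈ T`, `l < |t| < R`: at most `cn T R ≤ 2^(l - |q|) / 4`. -/
def AVO_stmt : Prop := ∀ (T : Set (List Bool)) (q : List Bool) (l R : ℕ), Good T q → q.length ≤ l →
  4 * cn T R ≤ 2 ^ (l - q.length) →
  ∃ p : List Bool, p.length = l ∧ q <+: p ∧ ∀ t ∈ T, q.length < t.length → t.length < R → ¬ t <+: p ∧ ¬ p <+: t

/-- **GV** (short; from TLS). `N₀ ≥ 4`: `f (N²) ≥ f N + (N² - N)`, `4 (2 N² + 4) ≤ 2^(N² - N)`; apply TLS at `N²`. -/
def GV_stmt : Prop := ∀ f : ℕ → ℕ, StrictMono f → ∀ T : Set (List Bool), Thin f T → ∃ N₀ : ℕ, ∀ N ≥ N₀, ∀ v : List Bool,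
  v.length = f N → (∀ t ∈ T, v <+: t → v.length < t.length → f (N ^ 2) ≤ t.length) → Good T v

/-! ## Block E: the functions `o (2 ^ j)` -/

/-- **E1** (short). `|A_j| ≤ 2^(e j)` (`card_level`), `(2^(e j))^k = 2^(k e j) ≤ 2^(2^j)`. -/
def E1_stmt : Prop := ∀ f e : ℕ → ℕ, StrictMono f → EE e → Sl f (AE f e)

/-- **E2** (medium; from GD, COR, AVO, GV). `Φ = ` the `(e j, 0 .. 0)` with `e j ≤ f (K_j)` (true for large `j`: `e j ≤ 2^j ≤ K_j ≤ f (K_j)`), `UN (AE f e) = {p ++ s ..}`; `q, M` from COR. Suppose `ET f T j < e j`, `j` large; `c = c_T(K_(j+1))`: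
`2^(e j - |q|) ≥ 2^(j + 1 - |q|) 2^(clog c) ≥ 4 c`, `|q| ≤ e j`. AVO (`l = e j`, `R = f (K_(j+1))`) gives `p`; `v = p 0 .. 0`, `|v| = f (K_j)`. A `t ∈ T` with `v ⊂ t`, `|v| < |t|` has `p ⊂ t`, so `|t| ≥ R = f (K_j²)`: `v` is good (GV, `N = K_j`). By COR
some `t ∈ T`, `|q| < |t|`, `t ⊂ v`; `|t| ≤ |v| < R`, and `t`, `p` are prefixes of `v`, so comparable: contradiction. -/
def E2_stmt : Prop := ∀ (f e : ℕ → ℕ) (T : Set (List Bool)), StrictMono f → Thin f T → EE e → LS (UN (AE f e)) ⊆ LS T →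
  ∃ m, ∀ j ≥ m, e j ≤ ET f T j

/-- **E3** (short-medium). `c = c_T(K_(j+1))`, `c^(8k) ≤ K_(j+1) = 2^(2^(j+1))`; `2^(clog c - 1) ≤ c` for `c ≥ 1`, so `8 k (clog c - 1) ≤ 2^(j+1)`, `k clog c ≤ 2^j / 4 + k`; `k j + k ≤ 2^j / 4` for large `j`. -/
def E3_stmt : Prop := ∀ (f : ℕ → ℕ) (T : Set (List Bool)), StrictMono f → Thin f T → EE (ET f T)

/-- **E4** (short; from Y0A, Y0B, Y0C, E1, E2, E3). `φ e = LS (UN (AE f e))`; for `Z ∈ I_f` take `T` from Y0C and the response `ET f T`. -/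
def E4_stmt : Prop := ∀ f : ℕ → ℕ, StrictMono f → Sq (yoriokaIdeal f) rE 1 {e | EE e}

/-- **E5** (short). As E3: `|A_j|^(4k) ≤ K_j = 2^(2^j)`. (`F` need not be monotone.) -/
def E5_stmt : Prop := ∀ (F : ℕ → ℕ) (A : ℕ → Finset (List Bool)), Sl F A → EE (fun j => Nat.clog 2 (A j).card)

/-- **E6** (short; from E4, E5, SQT). `a A = (fun j => Nat.clog 2 (A j).card)`, `Nat.le_pow_clog`; SQT with `k = 1`, `l = 0`: the response is `y'` itself. -/
def E6_stmt : Prop := ∀ f F : ℕ → ℕ, StrictMono f → Sq (yoriokaIdeal f) rC 1 {A | Sl F A}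

/-! ## Block U: the first localisation -/

/-- **U1** (medium). `|t| = f (K_(j + u j))` for the strings `t` of level `j` (as `2^j + f (K_j) ≤ f (K_(j+1))`), and there are at most `2^(2^j) |A_j| = K_j |A_j|` of them, `≤ K_(j+1)` for large `j`. The levels `j` with `K_(j + u j) < N`: let `J` be the
largest one; `c(N) ≤ C + ∑_(j ≤ J) K_(j+1) ≤ C + K_(J+2)`, and `(C + K_(J+2))^k ≤ K_(J + u J) < N` if `J` is large (`u J → ∞`). If `J` is bounded then `c(N)` is bounded. -/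
def U1_stmt : Prop := ∀ (f u : ℕ → ℕ) (A : ℕ → Finset (List Bool)), StrictMono f → UF u → Sl f A → Thin f (TU f u A)

/-- **U2** (medium; from GD, COR, AVO, GV). `Φ = ` the `(2^j, s 0 .. 0)`, `s ∈ A j`; `q, M` from COR. Let `s ∈ A j`, `j` large. AVO with `l = 2^j`, `R = f (K_(j+1))` (`c_T(K_(j+1))^4 ≤ K_(j+1)`, so `c_T(K_(j+1)) ≤ 2^(2^(j-1)) ≤ 2^(2^j - |q| - 2)`)
gives `p`; `v = p s 0 .. 0`, `|v| = f (K_(j + u j)) ≥ M`. Either `v` is not good: by GV (`N = K_(j + u j)`) there is `t ∈ T`, `v ⊂ t`, `|v| < |t| < f (K_(j + u j + 1))`, and `t` determines `s`. Or (COR) `t ∈ T`, `|q| < |t|`, `t ⊂ v`; `t` and `p` are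
prefixes of `v`, so `|t| ≥ R ≥ 2^j + f (K_j)` and `t` determines `s`; `|t| ≤ |v| < f (K_(j + u j + 1))`. So `s ∈ BT f u T j`. -/
def U2_stmt : Prop := ∀ (f u : ℕ → ℕ) (A : ℕ → Finset (List Bool)) (T : Set (List Bool)), StrictMono f → UF u → Sl f A → Thin f T →
  LS (TU f u A) ⊆ LS T → ∃ m, ∀ j ≥ m, A j ⊆ BT f u T j

/-- **U3** (short). `|BT f u T j| ≤ c_T(K_(j + u j + 1))` (`t ↦ (t.drop _).take _` is onto), and `c_T(K_(i+1))² ≤ K_(i+1) = K_i²` for large `i`. -/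
def U3_stmt : Prop := ∀ (f u : ℕ → ℕ) (T : Set (List Bool)), StrictMono f → Thin f T → ∃ m, ∀ j ≥ m, (BT f u T j).card ≤ KK (j + u j)

/-- **U4** (short; from Y0B, Y0C, U1, U2, U3). `φ A = LS (TU f u A)`, response `BT f u T`. -/
def U4_stmt : Prop := ∀ f u : ℕ → ℕ, StrictMono f → UF u → Sq (yoriokaIdeal f) (r1 f u) 1 {A | Sl f A}

/-! ## Block D: the second localisation -/

/-- **CNT** (short-medium). Every `s ⊆ B`, `|s| ≤ n`, is the image of a function `Fin n → Option B` (values `none` dropped). -/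
def CNT_stmt : Prop := ∀ (α : Type) [DecidableEq α] (B : Finset α) (n : ℕ),
  (B.powerset.filter (fun s => s.card ≤ n)).card ≤ (B.card + 1) ^ n

/-- **D1** (short-medium). `D j = ` the largest `d ≤ j` with `(e i + 2 i) 2^d ≤ 2^i` for all `i ≥ j` (`0` if there is none). Unbounded: for given `C`, `2^(C+1) e i ≤ 2^i` and `2^(C+2) i ≤ 2^i` for `i ≥ m_C`, so `D (max m_C C) ≥ C`. -/
def D1_stmt : Prop := ∀ e : ℕ → ℕ, EE e → ∃ D : ℕ → ℕ, DF e D

/-- **D2** (short). `e j + 2 j ≤ 2^(j - D j)`, and `D j / 2 + 2 ≤ j` for `j ≥ 4`. -/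
def D2_stmt : Prop := ∀ e D : ℕ → ℕ, DF e D → UF (fun j => D j / 2 + 1) ∧
  ∃ m, ∀ j ≥ m, e j + j + (D j / 2 + 1) + 1 ≤ 2 ^ (j - D j) ∧ 2 * j ≤ 2 ^ (j - D j)

/-- **D3** (short-medium). Exponents: `k (e j + 2^(j - D j + 1 + D(j - D j + 1)/2 + 1)) ≤ 2^j`: `k e j ≤ 2^(j-1)`; for `D j ≥ 1`: `j - D j + 1 ≤ j`, so `D (j - D j + 1) ≤ D j` and the inner exponent is at most `j + 2 - D j / 2`; `2^(D j / 2) ≥ 8 k`. -/
def D3_stmt : Prop := ∀ e D : ℕ → ℕ, EE e → DF e D → ∀ k : ℕ, ∃ m, ∀ j ≥ m,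
  (2 ^ e j * KK (j - D j + 1 + (D (j - D j + 1) / 2 + 1))) ^ k ≤ KK j

/-- **D4** (short-medium; from D2). For `i` large all `j ∈ JJ D i` are large (`j ≥ i`). `K_a + 1 ≤ 2^(2^a + 1) ≤ 2^(2^(a+1))`, so the product is at most `2^E`, `E = ∑_(j ∈ JJ D i) 2^(e j + j + (D j / 2 + 1) + 1) ≤ (2^i + 1) 2^(2^i) ≤ (2^(2^i))² = K_(i+1)`. -/
def D4_stmt : Prop := ∀ e D : ℕ → ℕ, DF e D → ∃ m, ∀ i ≥ m,
  ∏ j ∈ JJ D i, (KK (j + (D j / 2 + 1)) + 1) ^ (2 ^ e j) ≤ 2 ^ KK (i + 1)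

/-- **O1** (short-medium; from U4, SQT). For large `i` there is an injection of `V i` into `level (f (K_i))` (`card_level`); `code i : α → List Bool`. `a o i = {code i (o i)}` if `o i ∈ V i` and `i` is large, `∅` otherwise: `Sl f (a o)`. Response to `B`:
`C i = ` the `v ∈ V i` with `code i v ∈ B i`. SQT with `k = 1`, `l = 0`. -/
def O1_stmt : Prop := ∀ (f u : ℕ → ℕ) (α : Type) (V : ℕ → Finset α), StrictMono f → UF u →
  (∃ m, ∀ i ≥ m, (V i).card ≤ 2 ^ f (KK i)) → Sq (yoriokaIdeal f) (r1V u) 1 {o : ℕ → α | ∃ m, ∀ i ≥ m, o i ∈ V i}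

/-- **L2C** (medium; from O1, CNT, D2, D3, D4, SQT). `u j = D j / 2 + 1`. Objects: `α = ℕ → Finset (List Bool)`, `a A (i + 1) = (fun j => if j ∈ JJ D i then A j else ∅)`, `V (i + 1) = ` the `c` with `c j = ∅` for `j ∉ JJ D i` and `c j ⊆ B j`,
`|c j| ≤ 2^(e j)` for `j ∈ JJ D i` (image of `Finset.pi`; at most `∏ (|B j| + 1)^(2^(e j))` elements by CNT, `≤ 2^(K_(i+1)) ≤ 2^(f (K_(i+1)))` by D4). O1 and SQT (`k = 1`, `l = 0`): response to `C`:
`S j = ⋃ {c j | c ∈ C (j - D j + 1), c j ⊆ B j, |c j| ≤ 2^(e j)}`; `|S j| ≤ 2^(e j) |C (j - D j + 1)| ≤ 2^(e j) K_(j - D j + 1 + u (j - D j + 1))`: D3. (`j ∈ JJ D (j - D j)` for large `j`, as `2 j ≤ 2^(j - D j)`, so also `j - D j → ∞`. If there is no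
`A` in the set related to `C` take `S = ∅`.) -/
def L2C_stmt : Prop := ∀ (f e D : ℕ → ℕ) (B : ℕ → Finset (List Bool)), StrictMono f → EE e → DF e D →
  (∀ j, ∀ s ∈ B j, s.length = f (KK j)) → (∃ m, ∀ j ≥ m, (B j).card ≤ KK (j + (D j / 2 + 1))) →
  Sq (yoriokaIdeal f) (rS f) 1 {A | Sl f A ∧ (∃ m, ∀ j ≥ m, (A j).card ≤ 2 ^ e j) ∧ ∃ m, ∀ j ≥ m, A j ⊆ B j}

/-- **L2** (short-medium; from E6, D1, D2, U4, L2C, SQT, SQM, SQE). SQT with E6 (`k = 1`, `l = 2`, `a = id`): for `e` with `EE e` (otherwise the set is empty: SQE) take `D`, `u j = D j / 2 + 1`; SQT with U4 (`k = 1`, `l = 1`): for `B` with the properties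
of `r1` (otherwise empty) L2C and SQM. -/
def L2_stmt : Prop := ∀ f : ℕ → ℕ, StrictMono f → Sq (yoriokaIdeal f) (rS f) 3 {A | Sl f A}

/-- **OB** (short-medium; from L2, SQT). As O1, with L2 in place of U4: `C i = ` the `v ∈ V i` with `code i v ∈ S i`. -/
def OB_stmt : Prop := ∀ (f : ℕ → ℕ) (α : Type) (V : ℕ → Finset α), StrictMono f →
  (∃ m, ∀ i ≥ m, (V i).card ≤ 2 ^ f (KK i)) → Sq (yoriokaIdeal f) rV 3 {o : ℕ → α | ∃ m, ∀ i ≥ m, o i ∈ V i}

/-! ## Block F: comparison of two functions, `2 ^ f` -/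

/-- **MON** (short-medium; from L2, SQT). `a A j = ` the `s 0 .. 0` of length `f (K_j)`, `s ∈ A j` (`∅` if `f (K_j) < g (K_j)`); response to `S`: `S' j = ` the truncations `s.take (g (K_j))`, `s ∈ S j` (for large `j`, `∅` otherwise). -/
def MON_stmt : Prop := ∀ f g : ℕ → ℕ, StrictMono f → StrictMono g → (∃ m, ∀ n ≥ m, g n ≤ f n) →
  Sq (yoriokaIdeal f) (rS g) 3 {A | Sl g A}

/-- **X1** (short-medium). `j ∈ JX f i`: `f (K_j) ≤ 2^i` (`Nat.le_pow_clog`), so `K_j ≤ 2^i`, `2^(f (K_j)) ≤ K_i`; at most `i` values of `j`. The product is at most `2^(i 2^i (K_i + 1)) ≤ 2^(K_i²)` for large `i`, and `K_i² = K_(i+1)`. -/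
def X1_stmt : Prop := ∀ f : ℕ → ℕ, StrictMono f → ∃ m, ∀ i ≥ m,
  ∏ j ∈ JX f i, (2 ^ (2 ^ f (KK j)) + 1) ^ KK j ≤ 2 ^ KK (i + 1)

/-- **X2** (short). `i = ii f j`: `2^(i-1) < f (K_j)` (`Nat.pow_pred_clog_lt_self`, `f (K_j) ≥ 2`), `c^4 ≤ K_(i+1) = 2^(2^(i+1))` gives `c ≤ 2^(2^(i-1)) ≤ 2^(f (K_j))`. `ii f j ≥ 2^j > j` as `f (K_j) ≥ 2^(2^j)`. -/
def X2_stmt : Prop := ∀ f : ℕ → ℕ, StrictMono f → (∀ j, j < ii f j) ∧ ∀ C : ℕ → ℕ, (∃ m, ∀ i ≥ m, C i ^ 4 ≤ KK i) →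
  ∃ m, ∀ j ≥ m, C (ii f j + 1) ≤ 2 ^ f (KK j)

/-- **XP1** (medium; from OB, CNT, X1, X2, SQT). `F n = 2 ^ f n`. As L2C: `a A (i + 1) = (fun j => if j ∈ JX f i then A j else ∅)`, `V (i + 1) = ` the `c` with `c j ⊆ level (2 ^ f (K_j))`, `|c j| ≤ K_j` for `j ∈ JX f i`, `∅` otherwise
(`|A j| ≤ K_j` for large `j`; count: CNT, X1, `2^(K_(i+1)) ≤ 2^(f (K_(i+1)))`). OB and SQT (`k = 3`, `l = 0`): response to `C`: `W j = {c j | c ∈ C (ii f j + 1)}`; X2. (`j ∈ JX f (ii f j)` as `j < ii f j`. If nothing is related to `C` take `W = ∅`.) -/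
def XP1_stmt : Prop := ∀ f : ℕ → ℕ, StrictMono f → Sq (yoriokaIdeal f) (rW f) 3 {A | Sl (fun n => 2 ^ f n) A}

/-- **XP2** (short-medium; from OB, SQT). OB with `V = W` (`α = Finset (List Bool)`), `a A = A`; response to `C`: `S j = ⋃ {c ∈ C j | |c| ≤ 2^(e j), all strings of c of length 2 ^ f (K_j)}`, `|S j| ≤ 2^(e j) |C j|`; `(2^(e j))^(2k) ≤ K_j`, `|C j|^(2k) ≤ K_j`. -/
def XP2_stmt : Prop := ∀ (f e : ℕ → ℕ) (W : ℕ → Finset (Finset (List Bool))), StrictMono f → EE e →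
  (∃ m, ∀ j ≥ m, (W j).card ≤ 2 ^ f (KK j)) →
  Sq (yoriokaIdeal f) (rS (fun n => 2 ^ f n)) 3
    {A | Sl (fun n => 2 ^ f n) A ∧ (∃ m, ∀ j ≥ m, (A j).card ≤ 2 ^ e j) ∧ ∃ m, ∀ j ≥ m, A j ∈ W j}

/-- **EXP** (short-medium; from E6, XP1, XP2, SQT, SQM, SQE). SQT with E6 (`F = 2 ^ f`, `k = 1`, `l = 6`), then SQT with XP1 (`k = 3`, `l = 3`), then XP2 and SQM, as in L2. -/
def EXP_stmt : Prop := ∀ f : ℕ → ℕ, StrictMono f → Sq (yoriokaIdeal f) (rS (fun n => 2 ^ f n)) 7 {A | Sl (fun n => 2 ^ f n) A}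

/-- **TOI** (short; from Y0A, Y0B, Y0C, Y0D, Y0E, SQT). `a A = ` a slalom `B` with `Sl g B`, `A ⊆ LS (UN B)` (Y0C, Y0D); response to `S` with `Sl g S`: `LS (UN S) ∈ I_g` (Y0A, Y0B), Y0E. SQT with `l = 0`. -/
def TOI_stmt : Prop := ∀ (g : ℕ → ℕ) (J : Set (Set (ℕ → Bool))) (k : ℕ), StrictMono g → Sq J (rS g) k {A | Sl g A} →
  Sq J (IRel (yoriokaIdeal g)) k Set.univ

/-- **FA** (short-medium; from SQA, SQC, Y0F). `add`: if `J ⊆ I_g`, `#J < add (I_f)`, then `J` has an upper bound in `I_g` (SQA), so `⋃₀ J ∈ I_g` (the set in the definition of `add (I_g)` is nonempty: singletons, see `exists_not_union`).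
`cof`: SQC gives a cofinal family of size `≤ cof (I_f)`. -/
def FA_stmt : Prop := ∀ (f g : ℕ → ℕ) (k : ℕ), StrictMono f → StrictMono g → Sq (yoriokaIdeal f) (IRel (yoriokaIdeal g)) k Set.univ →
  add (yoriokaIdeal f) ≤ add (yoriokaIdeal g) ∧ cof (yoriokaIdeal g) ≤ cof (yoriokaIdeal f)

/-- part (a) -/
def PA_stmt : Prop := ∀ f g : ℕ → ℕ, StrictMono f → StrictMono g → (∃ m, ∀ n ≥ m, g n ≤ f n) →
  add (yoriokaIdeal f) ≤ add (yoriokaIdeal g) ∧ cof (yoriokaIdeal g) ≤ cof (yoriokaIdeal f)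

/-- part (b) -/
def PB_stmt : Prop := ∀ f : ℕ → ℕ, StrictMono f →
  add (yoriokaIdeal (fun n => 2 ^ f n)) = add (yoriokaIdeal f) ∧ cof (yoriokaIdeal (fun n => 2 ^ f n)) = cof (yoriokaIdeal f)

/-- **TOW** (short; from PA, PB). Towers: `(fun x => 2 ^ x)^[h]` is strictly increasing, `id ≤ f`, `f ≤ (fun x => 2 ^ x)^[h]` eventually; induction on `h` by PB (`Function.iterate_succ'`), PA twice. -/
def TOW_stmt : Prop := ∀ f : ℕ → ℕ, StrictMono f → (∃ h m : ℕ, ∀ n ≥ m, f n ≤ (fun x : ℕ => 2 ^ x)^[h] n) →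
  add (yoriokaIdeal f) = add (yoriokaIdeal id) ∧ cof (yoriokaIdeal f) = cof (yoriokaIdeal id)

end H61.Y2
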